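import Pool.Agent.ZC.Iso2

/-!
# Legendre models with an explicit change of coordinates
-/

set_option autoImplicit false

noncomputable section

namespace Pool.Agent.ZC

open Polynomial WeierstrassCurve
open scoped Classical

/-- the Legendre model which belongs to an ordering of the roots -/
private theorem leg_of_roots' (W : WeierstrassCurve (AlgebraicClosure ℚ)) (hΔ : W.Δ ≠ 0)
    (e1 e2 e3 : AlgebraicClosure ℚ) (hb2 : W.b₂ = -4 * (e1 + e2 + e3))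
    (hb4 : W.b₄ = 2 * (e1 * e2 + e1 * e3 + e2 * e3)) (hb6 : W.b₆ = -4 * (e1 * e2 * e3))
    (h12 : e2 - e1 ≠ 0) (h13 : e3 - e1 ≠ 0) (h23 : e3 - e2 ≠ 0) :
    ∃ φ : (leg ((e3 - e1) / (e2 - e1))).toAffine.Point →+ W.toAffine.Point,
      Function.Bijective φ ∧ Lift (fun P => φ P) ∧ ∃ w r s t : AlgebraicClosure ℚ,
        ∀ x y h, ∃ h', φ (.some x y h) =
          .some (w ^ 2 * x + r) (w ^ 3 * y + s * w ^ 2 * x + t) h' := by
  have he1 : 4 * e1 ^ 3 + W.b₂ * e1 ^ 2 + 2 * W.b₄ * e1 + W.b₆ = 0 := by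
    rw [hb2, hb4, hb6]; ring
  obtain ⟨w, hw⟩ : ∃ w : AlgebraicClosure ℚ, w ^ 2 = e2 - e1 :=
    IsAlgClosed.exists_pow_nat_eq _ (by norm_num)
  have hw0 : w ≠ 0 := by
    rintro rfl
    apply h12
    rw [← hw]; ring
  have hb2' : W.b₂ = W.a₁ ^ 2 + 4 * W.a₂ := rfl
  have hb4' : W.b₄ = 2 * W.a₄ + W.a₁ * W.a₃ := rfl
  have hb6' : W.b₆ = W.a₃ ^ 2 + 4 * W.a₆ := rfl
  have hl : (e3 - e1) / (e2 - e1) * (e2 - e1) = e3 - e1 := div_mul_cancel₀ _ h12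
  have hI : IsoChg (leg ((e3 - e1) / (e2 - e1))) W w e1 (-W.a₁ / 2)
      (-(W.a₁ * e1 + W.a₃) / 2) := by
    refine ⟨hw0, ?_, ?_, ?_, ?_, ?_⟩
    · simp only [leg]; ring
    · simp only [leg]
      rw [hw]
      linear_combination -hl - hb2 / 4 + hb2' / 4
    · simp only [leg]; ring
    · simp only [leg]
      rw [show w ^ 4 = (w ^ 2) ^ 2 by ring, hw]
      linear_combination (e2 - e1) * hl - hb4 / 2 + hb4' / 2 - e1 * (hb2 / 2 - hb2' / 2)
    · simp only [leg]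
      linear_combination -he1 / 4 + hb6' / 4 + e1 * hb4' / 2 + e1 ^ 2 * hb2' / 4
  have hΔ' : (leg ((e3 - e1) / (e2 - e1))).Δ ≠ 0 := by
    rw [leg_Δ]
    have h1 : (e3 - e1) / (e2 - e1) - 1 = (e3 - e2) / (e2 - e1) := by
      field_simp; ring
    rw [h1]
    exact mul_ne_zero (by norm_num) (pow_ne_zero 2 (mul_ne_zero (div_ne_zero h13 h12)
      (div_ne_zero h23 h12)))
  exact ⟨hI.hom hΔ, ⟨hI.fn_injective hΔ, hI.fn_surjective hΔ hΔ'⟩, hI.lift hΔ,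
    w, e1, -W.a₁ / 2, -(W.a₁ * e1 + W.a₃) / 2, fun x y h => ⟨_, hI.fn_some hΔ h⟩⟩

/-- Every elliptic curve over `ℚ̄` is a Legendre curve with parameter `l`, where `l` is a unit and
`1 - l` is integral at a given place above two; with the formula for the isomorphism. -/
theorem exists_leg3 (ι : AlgebraicClosure ℚ →+* PadicAlgCl 2)
    (W : WeierstrassCurve (AlgebraicClosure ℚ)) [W.IsElliptic] :
    ∃ l : AlgebraicClosure ℚ, l ≠ 0 ∧ l ≠ 1 ∧ ‖ι l‖ = 1 ∧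
      ∃ φ : (leg l).toAffine.Point →+ W.toAffine.Point, Function.Bijective φ ∧
        Lift (fun P => φ P) ∧ ∃ w r s t : AlgebraicClosure ℚ,
        ∀ x y h, ∃ h', φ (.some x y h) =
          .some (w ^ 2 * x + r) (w ^ 3 * y + s * w ^ 2 * x + t) h' := by
  have hΔ : W.Δ ≠ 0 := W.coe_Δ' ▸ W.Δ'.ne_zero
  -- a root of the cubic
  obtain ⟨e1, he1⟩ : ∃ e : AlgebraicClosure ℚ, 4 * e ^ 3 + W.b₂ * e ^ 2 + 2 * W.b₄ * e + W.b₆ = 0 := by
    set P : (AlgebraicClosure ℚ)[X] := C 4 * X ^ 3 + C W.b₂ * X ^ 2 + C (2 * W.b₄) * X + C W.b₆ with hP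
    have hdeg : P.degree = 3 := degree_cubic (by norm_num)
    obtain ⟨e, he⟩ := IsAlgClosed.exists_root P (by rw [hdeg]; norm_num)
    refine ⟨e, ?_⟩
    simpa [hP, IsRoot] using he
  obtain ⟨d, hd⟩ : ∃ d : AlgebraicClosure ℚ, d ^ 2 =
      (W.b₂ / 4 + e1) ^ 2 - 4 * (W.b₄ / 2 + e1 * (W.b₂ / 4 + e1)) :=
    IsAlgClosed.exists_pow_nat_eq _ (by norm_num)
  obtain ⟨e2, he2⟩ : ∃ e : AlgebraicClosure ℚ, e = (-(W.b₂ / 4 + e1) + d) / 2 := ⟨_, rfl⟩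
  obtain ⟨e3, he3⟩ : ∃ e : AlgebraicClosure ℚ, e = (-(W.b₂ / 4 + e1) - d) / 2 := ⟨_, rfl⟩
  have hb2 : W.b₂ = -4 * (e1 + e2 + e3) := by
    rw [he2, he3]; ring
  have hb4 : W.b₄ = 2 * (e1 * e2 + e1 * e3 + e2 * e3) := by
    rw [he2, he3]
    linear_combination hd / 2
  have hb6 : W.b₆ = -4 * (e1 * e2 * e3) := by
    have : e2 * e3 = W.b₄ / 2 + e1 * (W.b₂ / 4 + e1) := by
      rw [he2, he3]
      linear_combination -hd / 4
    linear_combination he1 + 4 * e1 * this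
  have hb8 : 4 * W.b₈ = W.b₂ * W.b₆ - W.b₄ ^ 2 := W.b_relation
  have hΔ' : W.Δ = 16 * ((e1 - e2) * (e1 - e3) * (e2 - e3)) ^ 2 := by
    have h4 : 4 * W.Δ = -W.b₂ ^ 2 * (W.b₂ * W.b₆ - W.b₄ ^ 2) - 32 * W.b₄ ^ 3 - 108 * W.b₆ ^ 2 +
        36 * W.b₂ * W.b₄ * W.b₆ := by
      simp only [WeierstrassCurve.Δ]
      linear_combination (-(W.b₂ ^ 2)) * hb8
    rw [hb2, hb4, hb6] at h4
    linear_combination h4 / 4
  have h12 : e2 - e1 ≠ 0 := by
    intro h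
    apply hΔ
    rw [hΔ']
    have : e1 - e2 = 0 := by linear_combination -h
    rw [this]; ring
  have h13 : e3 - e1 ≠ 0 := by
    intro h
    apply hΔ
    rw [hΔ']
    have : e1 - e3 = 0 := by linear_combination -h
    rw [this]; ring
  have h23 : e3 - e2 ≠ 0 := by
    intro h
    apply hΔ
    rw [hΔ']
    have : e2 - e3 = 0 := by linear_combination -h
    rw [this]; ring
  -- order the roots
  have key : ∀ f1 f2 f3 : AlgebraicClosure ℚ, W.b₂ = -4 * (f1 + f2 + f3) →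
      W.b₄ = 2 * (f1 * f2 + f1 * f3 + f2 * f3) → W.b₆ = -4 * (f1 * f2 * f3) →
      f2 - f1 ≠ 0 → f3 - f1 ≠ 0 → f3 - f2 ≠ 0 → ‖ι (f3 - f2)‖ ≤ ‖ι (f2 - f1)‖ →
      ‖ι (f3 - f2)‖ ≤ ‖ι (f3 - f1)‖ →
      ∃ l : AlgebraicClosure ℚ, l ≠ 0 ∧ l ≠ 1 ∧ ‖ι l‖ = 1 ∧
        ∃ φ : (leg l).toAffine.Point →+ W.toAffine.Point, Function.Bijective φ ∧
          Lift (fun P => φ P) ∧ ∃ w r s t : AlgebraicClosure ℚ,
          ∀ x y h, ∃ h', φ (.some x y h) =
            .some (w ^ 2 * x + r) (w ^ 3 * y + s * w ^ 2 * x + t) h' := by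
    intro f1 f2 f3 g2 g4 g6 k12 k13 k23 n1 n2
    have n12 : ‖ι (f2 - f1)‖ ≠ 0 := by
      rw [norm_ne_zero_iff]; exact (map_ne_zero ι).2 k12
    have hmax1 : ‖ι (f3 - f1)‖ ≤ ‖ι (f2 - f1)‖ := by
      have : ι (f3 - f1) = ι (f3 - f2) + ι (f2 - f1) := by rw [← map_add]; congr 1; ring
      rw [this]
      exact (PadicAlgCl.isNonarchimedean 2 _ _).trans (max_le n1 le_rfl)
    have hmax2 : ‖ι (f2 - f1)‖ ≤ ‖ι (f3 - f1)‖ := by
      have : ι (f2 - f1) = -ι (f3 - f2) + ι (f3 - f1) := by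
        rw [← map_neg, ← map_add]; congr 1; ring
      rw [this]
      refine (PadicAlgCl.isNonarchimedean 2 _ _).trans (max_le ?_ le_rfl)
      rw [norm_neg]; exact n2
    have heq := le_antisymm hmax1 hmax2
    refine ⟨(f3 - f1) / (f2 - f1), div_ne_zero k13 k12, ?_, ?_,
      leg_of_roots' W hΔ f1 f2 f3 g2 g4 g6 k12 k13 k23⟩
    · intro h
      rw [div_eq_one_iff_eq k12] at h
      exact k23 (by linear_combination h)
    · rw [map_div₀, norm_div, heq, div_self n12]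
  have hsym : ∀ a b : AlgebraicClosure ℚ, ‖ι (a - b)‖ = ‖ι (b - a)‖ := by
    intro a b
    rw [← norm_neg, ← map_neg, neg_sub]
  have hne : ∀ {a b : AlgebraicClosure ℚ}, a - b ≠ 0 → b - a ≠ 0 := by
    intro a b h h'
    apply h
    linear_combination -h'
  rcases le_total ‖ι (e3 - e2)‖ ‖ι (e2 - e1)‖ with h1 | h1
  · rcases le_total ‖ι (e3 - e2)‖ ‖ι (e3 - e1)‖ with h2 | h2
    · exact key e1 e2 e3 hb2 hb4 hb6 h12 h13 h23 h1 h2
    · -- `e3 - e1` is the smallest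
      refine key e2 e1 e3 (by rw [hb2]; ring) (by rw [hb4]; ring) (by rw [hb6]; ring) (hne h12)
        h23 h13 ?_ h2
      rw [hsym e1 e2]
      exact h2.trans h1
  · rcases le_total ‖ι (e2 - e1)‖ ‖ι (e3 - e1)‖ with h2 | h2
    · -- `e2 - e1` is the smallest
      refine key e3 e1 e2 (by rw [hb2]; ring) (by rw [hb4]; ring) (by rw [hb6]; ring) (hne h13)
        (hne h23) h12 ?_ ?_
      · rw [hsym e1 e3]; exact h2
      · rw [hsym e2 e3]; exact h1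
    · -- `e3 - e1` is the smallest
      refine key e2 e1 e3 (by rw [hb2]; ring) (by rw [hb4]; ring) (by rw [hb6]; ring) (hne h12)
        h23 h13 ?_ ?_
      · rw [hsym e1 e2]; exact h2
      · exact h2.trans h1

end Pool.Agent.ZC
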