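import Pool.Agent.ZCInf.Final

/-!
# Conjugates of morphisms, and of the points with a given abscissa
-/

set_option autoImplicit false

noncomputable section

namespace Pool.Agent.ZC

open Polynomial WeierstrassCurve
open scoped Classical

section Tw

variable {k F : Type} [Field k] [Field F] [inst : Algebra k F] (σ : k ≃+* k)

/-- the algebra structure twisted by an automorphism -/
@[reducible] def twAlg : Algebra k F := ((algebraMap k F).comp (σ : k →+* k)).toAlgebra

theorem isPlace_tw {O : ValuationSubring F} (h : IsPlace k O) :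
    @IsPlace k F _ _ (twAlg σ) O :=
  ⟨fun a => h.1 (σ a), h.2⟩

theorem specAt_tw {O : ValuationSubring F} {W : WeierstrassCurve k}
    {a : ((W.map (σ : k →+* k))⁄F).toAffine.Point} {p : (W.map (σ : k →+* k)).toAffine.Point}
    {p' : W.toAffine.Point} (h0 : p = 0 → p' = 0)
    (hp : ∀ x y h, p = .some x y h → ∃ h', p' = .some (σ.symm x) (σ.symm y) h')
    (h : SpecAt O (W.map (σ : k →+* k)) a p) :
    @SpecAt k F _ _ (twAlg σ) O W a p' := by
  cases h with
  | zero =>
    rw [h0 rfl]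
    exact @SpecAt.zero k F _ _ (twAlg σ) O W
  | @pole x y h hx =>
    rw [h0 rfl]
    exact @SpecAt.pole k F _ _ (twAlg σ) O W x y h hx
  | @finite x y b c h h' hx hy =>
    obtain ⟨h'', rfl⟩ := hp b c h' rfl
    refine @SpecAt.finite k F _ _ (twAlg σ) O W x y (σ.symm b) (σ.symm c) h h'' ?_ ?_
    · change O.valuation (x - algebraMap k F (σ (σ.symm b))) < 1
      rw [RingEquiv.apply_symm_apply]
      exact hx
    · change O.valuation (y - algebraMap k F (σ (σ.symm c))) < 1
      rw [RingEquiv.apply_symm_apply]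
      exact hy

omit [Field k] in
theorem specAt_zero' {k : Type} [Field k] [Algebra k F] {O : ValuationSubring F}
    {W : WeierstrassCurve k} {p : W.toAffine.Point} (h : SpecAt O W 0 p) : p = 0 := by
  cases h
  rfl

omit [Field k] in
theorem specAt_some' {k : Type} [Field k] [Algebra k F] {O : ValuationSubring F}
    {W : WeierstrassCurve k} {x y : F} {h : (W⁄F).toAffine.Nonsingular x y}
    {p : W.toAffine.Point} (H : SpecAt O W (.some x y h) p) :
    (p = 0 ∧ x ∉ O) ∨ ∃ a b h', p = .some a b h' ∧ O.valuation (x - algebraMap k F a) < 1 ∧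
      O.valuation (y - algebraMap k F b) < 1 := by
  cases H with
  | pole h hx => exact Or.inl ⟨rfl, hx⟩
  | finite h h' hx hy => exact Or.inr ⟨_, _, h', rfl, hx, hy⟩

theorem specAt_untw {O : ValuationSubring F} {W : WeierstrassCurve k}
    {a : ((W.map (σ : k →+* k))⁄F).toAffine.Point} {p : (W.map (σ : k →+* k)).toAffine.Point}
    {p' : W.toAffine.Point} (h0 : p' = 0 → p = 0)
    (hp : ∀ x y h, p' = .some x y h → ∃ h', p = .some (σ x) (σ y) h')
    (H : @SpecAt k F _ _ (twAlg σ) O W a p') :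
    SpecAt O (W.map (σ : k →+* k)) a p := by
  rcases a with _ | ⟨x, y, h⟩
  · have h1 := @specAt_zero' F _ k _ (twAlg σ) O W p' H
    rw [h0 h1]
    exact SpecAt.zero
  · rcases @specAt_some' F _ k _ (twAlg σ) O W x y h p' H with ⟨h1, hx⟩ | ⟨b, c, h', h1, hx, hy⟩
    · rw [h0 h1]
      exact SpecAt.pole h hx
    · obtain ⟨h'', rfl⟩ := hp b c h' h1
      exact SpecAt.finite h h'' hx hy

end Tw

/-- conjugates of morphisms are morphisms -/
theorem Lift.conj {k : Type} [Field k] (σ : k ≃+* k) {W' W V' V : WeierstrassCurve k}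
    (hV' : W'.map (σ : k →+* k) = V') (hV : W.map (σ : k →+* k) = V)
    {G : W'.toAffine.Point → W.toAffine.Point} (hG : Lift G)
    (S : V'.toAffine.Point → W'.toAffine.Point) (T : W.toAffine.Point → V.toAffine.Point)
    (hS0 : S 0 = 0) (hS : ∀ x y h, ∃ h', S (.some x y h) = .some (σ.symm x) (σ.symm y) h')
    (hT0 : T 0 = 0) (hT : ∀ x y h, ∃ h', T (.some x y h) = .some (σ x) (σ y) h') :
    Lift (fun p => T (G (S p))) := by
  subst hV' hV
  intro F _ inst a
  obtain ⟨A, hA⟩ := @hG F _ (twAlg σ) a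
  refine ⟨A, fun O hO p hp => ?_⟩
  have h1 : @SpecAt k F _ _ (twAlg σ) O W' a (S p) := by
    refine specAt_tw σ ?_ ?_ hp
    · rintro rfl
      exact hS0
    · rintro x y h rfl
      exact hS x y h
  have h2 := hA O (isPlace_tw σ hO) (S p) h1
  refine specAt_untw σ ?_ ?_ h2
  · intro h
    show T (G (S p)) = 0
    rw [h]
    exact hT0
  · intro x y h h'
    show ∃ _, T (G (S p)) = _
    rw [h']
    exact hT x y h

theorem leg_map {k : Type} [Field k] (σ : k ≃+* k) (l : k) :
    (leg l).map (σ : k →+* k) = leg (σ l) := by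
  ext <;> simp [leg]

theorem exists_conj {k : Type} [Field k] (σ : k ≃+* k) (W W' : WeierstrassCurve k)
    (hW : W.map (σ : k →+* k) = W') :
    ∃ T : W.toAffine.Point → W'.toAffine.Point, T 0 = 0 ∧
      ∀ x y h, ∃ h', T (.some x y h) = .some (σ x) (σ y) h' := by
  subst hW
  refine ⟨fun P => match P with
      | 0 => 0
      | .some _ _ h => .some _ _ <|
        (Affine.map_nonsingular (W := W.toAffine) (f := (σ : k →+* k)) σ.injective _ _).mpr h,
      rfl, fun x y h => ⟨_, rfl⟩⟩

theorem SetE.conj {E E' : WeierstrassCurve (AlgebraicClosure ℚ)} {u : AlgebraicClosure ℚ}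
    (σ : AlgebraicClosure ℚ ≃+* AlgebraicClosure ℚ)
    (hE : E.map (σ : AlgebraicClosure ℚ →+* AlgebraicClosure ℚ) = E')
    (T : E.toAffine.Point → E'.toAffine.Point) (hT0 : T 0 = 0)
    (hT : ∀ x y h, ∃ h', T (.some x y h) = .some (σ x) (σ y) h')
    {a : E.toAffine.Point} (ha : a ∈ SetE E u) : T a ∈ SetE E' (σ u) := by
  obtain ⟨L, y, h, G, hL0, hL1, hy, hG, hG0, rfl⟩ := ha
  have e1 : (leg (σ L)).map (σ.symm : AlgebraicClosure ℚ →+* AlgebraicClosure ℚ) = leg L := by
    rw [leg_map, RingEquiv.symm_apply_apply]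
  obtain ⟨S, hS0, hS⟩ := exists_conj σ.symm (leg (σ L)) (leg L) e1
  obtain ⟨S', hS0', hS'⟩ := exists_conj σ (leg L) (leg (σ L)) (leg_map σ L)
  obtain ⟨h', hh'⟩ := hS' u y h
  refine ⟨σ L, σ y, h', fun p => T (G (S p)), ?_, ?_, ?_, ?_, ?_, ?_⟩
  · exact (map_ne_zero σ).2 hL0
  · intro hc
    exact hL1 (σ.injective (hc.trans (map_one σ).symm))
  · exact (map_ne_zero σ).2 hy
  · exact Lift.conj σ (leg_map σ L) hE hG S T hS0 hS hT0 hT
  · show T (G (S 0)) = 0
    rw [hS0, hG0, hT0]
  · show T (G (.some u y h)) = T (G (S (.some (σ u) (σ y) h')))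
    obtain ⟨h'', hh''⟩ := hS (σ u) (σ y) h'
    rw [hh'']
    congr 2
    rw [Affine.Point.some.injEq]
    exact ⟨(RingEquiv.symm_apply_apply σ u).symm, (RingEquiv.symm_apply_apply σ y).symm⟩

end Pool.Agent.ZC
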