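import Mathlib

/-!
# Orbits of unbounded size modulo torsion
-/

set_option autoImplicit false

namespace Pool.Agent.ZC

private theorem tors_of_zsmul {M : Type} [AddCommGroup M] {x : M} {n : ℤ} (hn : n ≠ 0)
    (h : IsOfFinAddOrder (n • x)) : IsOfFinAddOrder x := by
  rw [isOfFinAddOrder_iff_nsmul_eq_zero] at h ⊢
  obtain ⟨m, hm, h⟩ := h
  refine ⟨m * n.natAbs, Nat.mul_pos hm (Int.natAbs_pos.2 hn), ?_⟩
  have h1 : ((m : ℤ) * n) • x = 0 := by
    rw [mul_smul, natCast_zsmul]
    exact h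
  rcases Int.natAbs_eq n with h2 | h2
  · rw [← natCast_zsmul, Nat.cast_mul, ← h2]
    exact h1
  · have h3 : ((n.natAbs : ℕ) : ℤ) = -n := by omega
    rw [← natCast_zsmul, Nat.cast_mul, h3, mul_neg, neg_smul, h1, neg_zero]

private theorem sub_tors {M : Type} [AddCommGroup M] {x y : M} (hx : IsOfFinAddOrder x)
    (hy : IsOfFinAddOrder y) : IsOfFinAddOrder (x - y) :=
  (AddCommGroup.torsion M).sub_mem hx hy

private theorem bad_subsingleton {M : Type} [AddCommGroup M] {c e : M}
    (h : ¬ IsOfFinAddOrder c ∨ ¬ IsOfFinAddOrder e) :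
    {n : ℤ | IsOfFinAddOrder (c + n • e)}.Subsingleton := by
  intro n hn m hm
  by_contra hnm
  have h1 : IsOfFinAddOrder ((n - m) • e) := by
    have h2 := sub_tors hn hm
    have h3 : c + n • e - (c + m • e) = (n - m) • e := by
      rw [sub_smul]; abel
    rwa [h3] at h2
  have he : IsOfFinAddOrder e := tors_of_zsmul (sub_ne_zero.2 hnm) h1
  have hc : IsOfFinAddOrder c := by
    have h4 : IsOfFinAddOrder (n • e) := (AddCommGroup.torsion M).zsmul_mem he n
    have h5 := sub_tors hn h4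
    rwa [add_sub_cancel_right] at h5
  exact h.elim (fun h => h hc) (fun h => h he)

theorem orbit_unbounded {M Γ : Type} [AddCommGroup M] (A : Γ → M →+ M) (mul : Γ → Γ → Γ) (one : Γ)
    (hmul : ∀ τ σ x, A (mul τ σ) x = A τ (A σ x)) (hinj : ∀ σ, Function.Injective (A σ))
    (G : AddSubgroup M)
    (h : ∀ a ∈ G, ∃ b ∈ G, ¬ IsOfFinAddOrder b ∧ ∃ σ, A σ a = a ∧ A σ b = -b) (d : ℕ) :
    ∃ a ∈ G, ∃ σ : Fin d → Γ, ∀ i j, i ≠ j → ¬ IsOfFinAddOrder (A (σ i) a - A (σ j) a) := by
  suffices h0 : ∀ d : ℕ, ∃ a ∈ G, ∃ σ : Fin (d + 1) → Γ, ∀ i j, i ≠ j →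
      ¬ IsOfFinAddOrder (A (σ i) a - A (σ j) a) by
    cases d with
    | zero => exact ⟨0, G.zero_mem, fun i => i.elim0, fun i => i.elim0⟩
    | succ d => exact h0 d
  intro d
  induction d with
  | zero =>
    refine ⟨0, G.zero_mem, fun _ => one, fun i j hij => absurd ?_ hij⟩
    exact Subsingleton.elim (α := Fin 1) i j
  | succ d ih =>
    obtain ⟨a, haG, σ, hσ⟩ := ih
    obtain ⟨b, hbG, hb, ρ, hρa, hρb⟩ := h a haG
    obtain ⟨τ, hτ⟩ : ∃ τ : Fin (d + 2) → Γ, τ = Fin.snoc (α := fun _ => Γ) σ (mul (σ 0) ρ) :=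
      ⟨_, rfl⟩
    have hτ1 : ∀ i : Fin (d + 1), τ i.castSucc = σ i := fun i => by
      rw [hτ]; exact Fin.snoc_castSucc (α := fun _ => Γ) _ _ _
    have hτ2 : τ (Fin.last (d + 1)) = mul (σ 0) ρ := by
      rw [hτ]; exact Fin.snoc_last (α := fun _ => Γ) _ _
    have hnt : ∀ x : M, ¬ IsOfFinAddOrder x → ∀ s : Γ, ¬ IsOfFinAddOrder (A s x) := by
      intro x hx s hs
      exact hx ((hinj s).isOfFinAddOrder_iff.1 hs)
    have hneg : ∀ x : M, ¬ IsOfFinAddOrder x → ¬ IsOfFinAddOrder (-x) := fun x hx hs =>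
      hx (by simpa using hs.neg)
    have h2b : ¬ IsOfFinAddOrder ((-2 : ℤ) • A (σ 0) b) := fun hs =>
      hnt b hb (σ 0) (tors_of_zsmul (by norm_num) hs)
    have key1 : ∀ j : Fin (d + 1), ¬ IsOfFinAddOrder (A (τ (Fin.last _)) a - A (τ j.castSucc) a) ∨
        ¬ IsOfFinAddOrder (A (τ (Fin.last _)) b - A (τ j.castSucc) b) := by
      intro j
      rw [hτ1, hτ2, hmul, hmul, hρa, hρb]
      by_cases hj : j = 0
      · right
        subst hj
        have e : A (σ 0) (-b) - A (σ 0) b = (-2 : ℤ) • A (σ 0) b := by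
          rw [map_neg]
          have : (-2 : ℤ) = -1 - 1 := by norm_num
          rw [this, sub_smul, neg_smul, one_smul]
        rw [e]
        exact h2b
      · left
        exact hσ 0 j (Ne.symm hj)
    have key : ∀ i j : Fin (d + 2), i ≠ j → ¬ IsOfFinAddOrder (A (τ i) a - A (τ j) a) ∨
        ¬ IsOfFinAddOrder (A (τ i) b - A (τ j) b) := by
      intro i j
      refine Fin.lastCases ?_ (fun i => ?_) i
      · refine Fin.lastCases ?_ (fun j => ?_) j
        · intro h; exact absurd rfl h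
        · intro _; exact key1 j
      · refine Fin.lastCases ?_ (fun j => ?_) j
        · intro _
          rcases key1 i with h | h
          · left
            intro hs
            exact h (by simpa using hs.neg)
          · right
            intro hs
            exact h (by simpa using hs.neg)
        · intro hij
          left
          rw [hτ1, hτ1]
          exact hσ i j fun h => hij (congrArg Fin.castSucc h)
    have hfin : (⋃ p : {p : Fin (d + 2) × Fin (d + 2) // p.1 ≠ p.2},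
        {n : ℤ | IsOfFinAddOrder ((A (τ p.1.1) a - A (τ p.1.2) a) +
          n • (A (τ p.1.1) b - A (τ p.1.2) b))}).Finite :=
      Set.finite_iUnion fun p => (bad_subsingleton (key _ _ p.2)).finite
    obtain ⟨n, hn⟩ := hfin.exists_notMem
    refine ⟨a + n • b, G.add_mem haG (G.zsmul_mem hbG n), τ, fun i j hij hs => hn ?_⟩
    rw [Set.mem_iUnion]
    refine ⟨⟨(i, j), hij⟩, ?_⟩
    show IsOfFinAddOrder ((A (τ i) a - A (τ j) a) + n • (A (τ i) b - A (τ j) b))
    have e : A (τ i) (a + n • b) - A (τ j) (a + n • b) =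
        (A (τ i) a - A (τ j) a) + n • (A (τ i) b - A (τ j) b) := by
      rw [map_add, map_add, map_zsmul, map_zsmul, smul_sub]
      abel
    rwa [e] at hs

end Pool.Agent.ZC
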