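import Pool.Agent.ZCInf.Next
import Pool.Agent.ZCInf.Gal
import Pool.Agent.ZCInf.Sq
import Pool.Agent.ZCInf.Reach
import Pool.Agent.ZCInf.Indep2
import Pool.Agent.ZC.Act
import Pool.Agent.ZC.Leg

/-!
# Points with a given abscissa which are not defined over a given number field

For every finite set `S` of algebraic numbers some point of `SetE (leg l) u` of infinite order is
mapped to its negative by an automorphism of `ℚ̄` which fixes `S`.
-/

set_option autoImplicit false

noncomputable section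

namespace Pool.Agent.ZC

open Polynomial WeierstrassCurve
open scoped Classical

theorem many2 (ι : AlgebraicClosure ℚ →+* PadicAlgCl 2) (l u : AlgebraicClosure ℚ)
    (hl : ‖ι l‖ = 1) (h1 : l ≠ 1) (hu1 : u ≠ 1) (hu : ‖ι (1 - u)‖ < 1 / 256)
    (S₀ : Finset (AlgebraicClosure ℚ)) :
    ∃ P : (leg l).toAffine.Point, P ∈ SetE (leg l) u ∧ (∀ N : ℤ, N ≠ 0 → N • P ≠ 0) ∧
      ∃ σ : AlgebraicClosure ℚ ≃ₐ[ℚ] AlgebraicClosure ℚ, (∀ s ∈ S₀, σ s = s) ∧
        ∀ T : (leg l).toAffine.Point →+ (leg l).toAffine.Point,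
          (∀ x y h, ∃ h', T (.some x y h) = .some (σ x) (σ y) h') → T P = -P := by
  obtain ⟨v, hv⟩ := IsAlgClosed.exists_pow_nat_eq u (n := 2) (by norm_num)
  obtain ⟨w, hw⟩ := IsAlgClosed.exists_pow_nat_eq (u - 1) (n := 2) (by norm_num)
  obtain ⟨L₁, G₁, S₁, hN₁, hR₁⟩ := reach ι l hl h1
  obtain ⟨L, G, S, node, inR, hS, nsq⟩ :=
    next (hN₁.mono (S' := (insert u (insert v (insert w S₁))) ∪ S₀)
      (((((Finset.subset_insert w S₁).trans (Finset.subset_insert v _)).trans
      (Finset.subset_insert u _))).trans Finset.subset_union_left)) hR₁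
  have memu : u ∈ S := hS (by simp)
  have memv : v ∈ S := hS (by simp)
  have memw : w ∈ S := hS (by simp)
  have memS : S₀ ⊆ S := fun s hs => hS (Finset.mem_union_right _ hs)
  have many_lt : ‖ι (1 - u)‖ < ‖ι (1 - L)‖ := by
    have h := inR.1
    linarith
  have many_u0 : u ≠ 0 := by
    rintro rfl
    rw [sub_zero, map_one, norm_one] at hu
    norm_num at hu
  have many_L0 : L ≠ 0 := by
    intro h
    have h1 := node.nrm
    rw [h, map_zero, norm_zero] at h1
    exact zero_ne_one h1
  have many_uL : u - L ≠ 0 := by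
    intro h
    have h1 := many_lt
    have h2 : (1 : AlgebraicClosure ℚ) - L = 1 - u :=
      congrArg (fun z => 1 - z) (sub_eq_zero.1 h).symm
    rw [h2] at h1
    exact lt_irrefl _ h1
  obtain ⟨y, hy⟩ : ∃ y : AlgebraicClosure ℚ, y ^ 2 = u * (u - 1) * (u - L) :=
    IsAlgClosed.exists_pow_nat_eq _ (by norm_num)
  have many_y0 : y ≠ 0 := by
    rintro rfl
    rw [zero_pow two_ne_zero] at hy
    exact mul_ne_zero (mul_ne_zero many_u0 (sub_ne_zero.2 hu1)) many_uL hy.symm
  have many_ns : ∀ y : AlgebraicClosure ℚ, y ^ 2 = u * (u - 1) * (u - L) →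
      (leg L).toAffine.Nonsingular u y := fun y hy =>
    ((IsLeg.leg many_L0 node.ne1).nonsingular u y).2 hy
  have many_not : ι y ∉ FF ι S := by
    intro hmem
    have hL1 : 1 - L ≠ 0 := sub_ne_zero.2 (Ne.symm node.ne1)
    have hv0 : v ≠ 0 := by
      rintro rfl
      exact many_u0 (by rw [← hv]; ring)
    have hw0 : w ≠ 0 := by
      rintro rfl
      apply hu1
      have h := hw
      rw [zero_pow two_ne_zero] at h
      exact (sub_eq_zero.1 h.symm)
    have mu := FF.mem ι memu
    have mL := FF.mem ι node.memL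
    have hx : ι ((u - L) / (1 - L)) ∈ FF ι S := by
      rw [map_div₀, map_sub, map_sub, map_one]
      exact (FF ι S).div_mem ((FF ι S).sub_mem mu mL) ((FF ι S).sub_mem (FF ι S).one_mem mL)
    have hn : ‖ι ((u - L) / (1 - L)) - 1‖ < 1 / 4 := by
      have e1 : ι ((u - L) / (1 - L)) - 1 = -(ι (1 - u) / ι (1 - L)) := by
        rw [← map_div₀, ← map_neg, ← map_one ι, ← map_sub]
        congr 1
        field_simp
        ring
      rw [e1, norm_neg, norm_div]
      have h2 := inR.1
      have h3 : 0 < ‖ι (1 - L)‖ := by linarith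
      rw [div_lt_iff₀ h3]
      linarith
    obtain ⟨z, hz, hz2⟩ := sq_near (FF ι S) _ hx hn
    have hz0 : z ≠ 0 := by
      rintro rfl
      rw [zero_pow two_ne_zero] at hz2
      have h := (map_eq_zero ι).1 hz2.symm
      exact div_ne_zero many_uL hL1 h
    apply nsq (ι y / (ι v * ι w * z))
    · rw [div_pow, mul_pow, mul_pow, hz2, ← map_pow, ← map_pow, ← map_pow, hy, hv, hw, ← map_mul,
        ← map_mul, ← map_div₀]
      congr 1
      have hu1' : u - 1 ≠ 0 := sub_ne_zero.2 hu1
      field_simp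
    · exact (FF ι S).div_mem hmem ((FF ι S).mul_mem ((FF ι S).mul_mem (FF.mem ι memv)
        (FF.mem ι memw)) hz)
  have many_gal : ∃ σ : AlgebraicClosure ℚ ≃ₐ[ℚ] AlgebraicClosure ℚ,
      (∀ a ∈ S, σ a = a) ∧ σ y = -y := by
    apply gal_flip ι S y _ many_not
    rw [hy]
    have mu : u ∈ IntermediateField.adjoin ℚ (S : Set (AlgebraicClosure ℚ)) :=
      IntermediateField.subset_adjoin _ _ (by exact_mod_cast memu)
    have mL : L ∈ IntermediateField.adjoin ℚ (S : Set (AlgebraicClosure ℚ)) :=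
      IntermediateField.subset_adjoin _ _ (by exact_mod_cast node.memL)
    exact mul_mem (mul_mem mu (sub_mem mu (one_mem _))) (sub_mem mu mL)
  obtain ⟨σ, hσ, hσy⟩ := many_gal
  refine ⟨G (.some u y (many_ns y hy)), ⟨L, y, many_ns y hy, G, many_L0, node.ne1, many_y0,
    node.lift, node.zero, rfl⟩, fun N hN => node.ntor u _ _ hu1 many_lt N hN, σ,
    fun s hs => hσ s (memS hs), fun T hT => ?_⟩
  have hσu : σ u = u := hσ u memu
  have h' : (leg L).toAffine.Nonsingular (σ u) (σ y) := by
    rw [hσu, hσy]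
    exact many_ns _ (by rw [neg_sq]; exact hy)
  rw [node.gal σ hσ T hT u y (many_ns y hy) hu1 many_lt h', ← node.neg]
  congr 1
  rw [Affine.Point.neg_some, Affine.Point.some.injEq]
  refine ⟨hσu, ?_⟩
  rw [hσy]
  unfold Affine.negY leg
  simp

end Pool.Agent.ZC
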