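import Pool.Agent.ZCK.Conj
import Pool.Agent.ZCK.Chg
import Pool.Agent.ZCK.Many2
import Pool.Agent.ZCK.Grp
import Pool.Agent.ZCN.Final

/-!
# Galois-stable systems of subgroups of infinite rank
-/

set_option autoImplicit false

noncomputable section

namespace Pool.Agent.ZC

open Polynomial WeierstrassCurve
open scoped Classical

/-- points of the group generated by the `SetE E u` which are mapped to their negatives by an
automorphism which fixes given elements -/
theorem exists_flip (ι : AlgebraicClosure ℚ →+* PadicAlgCl 2) (u : AlgebraicClosure ℚ)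
    (hu1 : u ≠ 1) (hu : ‖ι (1 - u)‖ < 1 / 256) (E : WeierstrassCurve (AlgebraicClosure ℚ))
    [E.IsElliptic] (S₀ : Finset (AlgebraicClosure ℚ)) :
    ∃ P : E.toAffine.Point, P ∈ SetE E u ∧ ¬ IsOfFinAddOrder P ∧
      ∃ σ : AlgebraicClosure ℚ ≃ₐ[ℚ] AlgebraicClosure ℚ, (∀ s ∈ S₀, σ s = s) ∧
        ∀ T : E.toAffine.Point →+ E.toAffine.Point,
          (∀ x y h, ∃ h', T (.some x y h) = .some (σ x) (σ y) h') → T P = -P := by
  obtain ⟨l, hl0, hl1, hl, φ, hφ, hL, w, r, s, t, hc⟩ := exists_leg3 ι E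
  obtain ⟨P, hP, hPN, σ, hσ, hσT⟩ := many2 ι l u hl hl1 hu1 hu
    (insert l (insert w (insert r (insert s (insert t S₀)))))
  have hσl : σ l = l := hσ l (by simp)
  have hσw : σ w = w := hσ w (by simp)
  have hσr : σ r = r := hσ r (by simp)
  have hσs : σ s = s := hσ s (by simp)
  have hσt : σ t = t := hσ t (by simp)
  refine ⟨φ P, SetE.image hL (map_zero φ) hP, ?_, σ, fun s hs => hσ s (by simp [hs]), ?_⟩
  · intro h
    rw [isOfFinAddOrder_iff_nsmul_eq_zero] at h
    obtain ⟨n, hn, h⟩ := h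
    rw [← map_nsmul] at h
    have h1 : n • P = 0 := hφ.1 (h.trans (map_zero φ).symm)
    exact hPN n (by exact_mod_cast hn.ne') (by rw [natCast_zsmul]; exact h1)
  · intro T hT
    obtain ⟨T', hT'⟩ := exists_act (l := l) σ hσl
    have key : ∀ Q, T (φ Q) = φ (T' Q) := by
      intro Q
      rcases Q with _ | ⟨x, y, h⟩
      · show T (φ 0) = φ (T' 0)
        simp only [map_zero]
      · obtain ⟨h1, e1⟩ := hc x y h
        obtain ⟨h2, e2⟩ := hT' x y h
        rw [e1, e2]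
        obtain ⟨h3, e3⟩ := hc (σ x) (σ y) h2
        obtain ⟨h4, e4⟩ := hT _ _ h1
        rw [e3, e4, Affine.Point.some.injEq]
        refine ⟨?_, ?_⟩
        · simp only [map_add, map_mul, map_pow, hσw, hσr]
        · simp only [map_add, map_mul, map_pow, hσw, hσs, hσt]
    rw [key, hσT T' hT', map_neg]

/-- a finite set of algebraic numbers, which generates a number field -/
theorem exists_gen (L : IntermediateField ℚ (AlgebraicClosure ℚ)) [FiniteDimensional ℚ L] :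
    ∃ S : Finset (AlgebraicClosure ℚ), ∀ σ : AlgebraicClosure ℚ ≃ₐ[ℚ] AlgebraicClosure ℚ,
      (∀ s ∈ S, σ s = s) → ∀ x ∈ L, σ x = x := by
  obtain ⟨S, hS⟩ := IntermediateField.fg_of_fg_toSubalgebra L
    ((Subalgebra.fg_iff_finiteType _).2 (inferInstanceAs (Algebra.FiniteType ℚ L)))
  refine ⟨S, fun σ hσ x hx => ?_⟩
  rw [← hS] at hx
  induction hx using IntermediateField.adjoin_induction with
  | mem s hs => exact hσ s (by exact_mod_cast hs)
  | algebraMap q => exact σ.commutes q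
  | add a b _ _ ha hb => rw [map_add, ha, hb]
  | inv a _ ha => rw [map_inv₀, ha]
  | mul a b _ _ ha hb => rw [map_mul, ha, hb]

theorem exists_lift_alg (L : IntermediateField ℚ (AlgebraicClosure ℚ))
    (σ : AlgebraicClosure ℚ ≃ₐ[ℚ] AlgebraicClosure ℚ) (h : ∀ x ∈ L, σ x = x) :
    ∃ τ : AlgebraicClosure ℚ ≃ₐ[L] AlgebraicClosure ℚ, ∀ x, τ x = σ x :=
  ⟨AlgEquiv.ofRingEquiv (f := (σ : AlgebraicClosure ℚ ≃+* AlgebraicClosure ℚ))
    (fun x => h x.1 x.2), fun _ => rfl⟩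

/-- Galois-stability -/
theorem closure_map (L : IntermediateField ℚ (AlgebraicClosure ℚ)) {u : AlgebraicClosure ℚ}
    (hu : u ∈ L) (E : WeierstrassCurve L) (σ : AlgebraicClosure ℚ ≃ₐ[L] AlgebraicClosure ℚ) :
    ∀ a ∈ AddSubgroup.closure (SetE (E⁄(AlgebraicClosure ℚ)) u),
      Affine.Point.map (W' := E) (σ : AlgebraicClosure ℚ →ₐ[L] AlgebraicClosure ℚ) a ∈
        AddSubgroup.closure (SetE (E⁄(AlgebraicClosure ℚ)) u) := by
  intro a ha
  have hle : AddSubgroup.closure (SetE (E⁄(AlgebraicClosure ℚ)) u) ≤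
      (AddSubgroup.closure (SetE (E⁄(AlgebraicClosure ℚ)) u)).comap
        (Affine.Point.map (W' := E) (σ : AlgebraicClosure ℚ →ₐ[L] AlgebraicClosure ℚ)) := by
    rw [AddSubgroup.closure_le]
    intro b hb
    apply AddSubgroup.subset_closure
    have hE : (E⁄(AlgebraicClosure ℚ)).map ((σ : AlgebraicClosure ℚ ≃+* AlgebraicClosure ℚ) :
        AlgebraicClosure ℚ →+* AlgebraicClosure ℚ) = E⁄(AlgebraicClosure ℚ) := by
      show E.map (((σ : AlgebraicClosure ℚ ≃+* AlgebraicClosure ℚ) :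
        AlgebraicClosure ℚ →+* AlgebraicClosure ℚ).comp (algebraMap L (AlgebraicClosure ℚ))) =
        E.map (algebraMap L (AlgebraicClosure ℚ))
      congr 1
      ext x
      exact σ.commutes x
    have h1 := SetE.conj (E := E⁄(AlgebraicClosure ℚ)) (E' := E⁄(AlgebraicClosure ℚ)) (u := u)
      (σ : AlgebraicClosure ℚ ≃+* AlgebraicClosure ℚ) hE
      (fun P => Affine.Point.map (W' := E) (σ : AlgebraicClosure ℚ →ₐ[L] AlgebraicClosure ℚ) P)
      rfl (fun x y h => ⟨_, rfl⟩) hb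
    have h2 : (σ : AlgebraicClosure ℚ ≃+* AlgebraicClosure ℚ) u = u := σ.commutes ⟨u, hu⟩
    rw [h2] at h1
    exact h1
  exact hle ha

/-- unbounded degree -/
theorem closure_orbit (ι : AlgebraicClosure ℚ →+* PadicAlgCl 2) (u : AlgebraicClosure ℚ)
    (hu1 : u ≠ 1) (hu : ‖ι (1 - u)‖ < 1 / 256)
    (L : IntermediateField ℚ (AlgebraicClosure ℚ)) [FiniteDimensional ℚ L]
    (E : WeierstrassCurve L) [E.IsElliptic] (d : ℕ) :
    ∃ a ∈ AddSubgroup.closure (SetE (E⁄(AlgebraicClosure ℚ)) u),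
      ∃ σ : Fin d → AlgebraicClosure ℚ ≃ₐ[L] AlgebraicClosure ℚ, ∀ i j, i ≠ j →
        ¬ IsOfFinAddOrder
          (Affine.Point.map (W' := E) (σ i : AlgebraicClosure ℚ →ₐ[L] AlgebraicClosure ℚ) a -
          Affine.Point.map (W' := E) (σ j : AlgebraicClosure ℚ →ₐ[L] AlgebraicClosure ℚ) a) := by
  have hE : (E⁄(AlgebraicClosure ℚ)).IsElliptic :=
    inferInstanceAs (E.map (algebraMap L (AlgebraicClosure ℚ))).IsElliptic
  refine orbit_unbounded (fun σ : AlgebraicClosure ℚ ≃ₐ[L] AlgebraicClosure ℚ =>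
    Affine.Point.map (W' := E) (σ : AlgebraicClosure ℚ →ₐ[L] AlgebraicClosure ℚ))
    (fun τ σ => σ.trans τ) AlgEquiv.refl ?_ ?_ _ ?_ d
  · intro τ σ x
    rw [Affine.Point.map_map]
    rfl
  · intro σ
    exact Affine.Point.map_injective _
  · intro a _
    obtain ⟨S, hS⟩ := exists_gen L
    obtain ⟨S', hS'⟩ : ∃ S' : Finset (AlgebraicClosure ℚ), ∀ x y h,
        a = .some x y h → x ∈ S' ∧ y ∈ S' := by
      rcases a with _ | ⟨x, y, h⟩
      · exact ⟨∅, fun x y h e => absurd e (by rintro ⟨⟩)⟩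
      · refine ⟨{x, y}, fun x' y' h' e => ?_⟩
        rw [Affine.Point.some.injEq] at e
        obtain ⟨rfl, rfl⟩ := e
        simp
    obtain ⟨P, hP, hPt, σ, hσ, hσT⟩ := exists_flip ι u hu1 hu (E⁄(AlgebraicClosure ℚ)) (S ∪ S')
    obtain ⟨τ, hτ⟩ := exists_lift_alg L σ
      (hS σ fun s hs => hσ s (Finset.mem_union_left _ hs))
    refine ⟨P, AddSubgroup.subset_closure hP, hPt, τ, ?_, ?_⟩
    · rcases a with _ | ⟨x, y, h⟩
      · rfl
      · have hx := hS' x y h rfl
        rw [Affine.Point.map_some, Affine.Point.some.injEq]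
        exact ⟨(hτ x).trans (hσ x (Finset.mem_union_right _ hx.1)),
          (hτ y).trans (hσ y (Finset.mem_union_right _ hx.2))⟩
    · apply hσT
      intro x y h
      rw [← hτ x, ← hτ y]
      exact ⟨_, Affine.Point.map_some (W' := E)
        (τ : AlgebraicClosure ℚ →ₐ[L] AlgebraicClosure ℚ) h⟩

/-- Zero-cycles on products of elliptic curves over `ℚ̄` and over number fields. -/
theorem resultK_aux (E₀ : WeierstrassCurve (AlgebraicClosure ℚ)) [E₀.IsElliptic]
    (P₀ : E₀.toAffine.Point) :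
    ∃ (K : IntermediateField ℚ (AlgebraicClosure ℚ))
      (G : (E : WeierstrassCurve (AlgebraicClosure ℚ)) → AddSubgroup E.toAffine.Point),
      FiniteDimensional ℚ K ∧
      (∃ n : ℕ, 0 < n ∧ n • P₀ ∈ G E₀) ∧
      (∀ (E E' : WeierstrassCurve (AlgebraicClosure ℚ))
        (φ : E.toAffine.Point →+ E'.toAffine.Point), Lift (fun P => φ P) →
        ∀ a ∈ G E, φ a ∈ G E') ∧
      (∀ (L : IntermediateField ℚ (AlgebraicClosure ℚ)), K ≤ L → ∀ (E : WeierstrassCurve L)
        (σ : AlgebraicClosure ℚ ≃ₐ[L] AlgebraicClosure ℚ), ∀ a ∈ G (E⁄(AlgebraicClosure ℚ)),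
        Affine.Point.map (W' := E) (σ : AlgebraicClosure ℚ →ₐ[L] AlgebraicClosure ℚ) a ∈
          G (E⁄(AlgebraicClosure ℚ))) ∧
      (∀ (L : IntermediateField ℚ (AlgebraicClosure ℚ)) [FiniteDimensional ℚ L]
        (E : WeierstrassCurve L) [E.IsElliptic] (d : ℕ), ∃ a ∈ G (E⁄(AlgebraicClosure ℚ)),
        ∃ σ : Fin d → AlgebraicClosure ℚ ≃ₐ[L] AlgebraicClosure ℚ, ∀ i j, i ≠ j →
          ¬ IsOfFinAddOrder
            (Affine.Point.map (W' := E) (σ i : AlgebraicClosure ℚ →ₐ[L] AlgebraicClosure ℚ) a -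
            Affine.Point.map (W' := E) (σ j : AlgebraicClosure ℚ →ₐ[L] AlgebraicClosure ℚ) a)) ∧
      (∀ (E : WeierstrassCurve (AlgebraicClosure ℚ)) [E.IsElliptic],
        ∃ P : ℕ → E.toAffine.Point, LinearIndependent ℤ P ∧ ∀ i, P i ∈ G E) ∧
      ∀ (N : ℕ) (E : Fin N → WeierstrassCurve (AlgebraicClosure ℚ)), (∀ i, (E i).IsElliptic) →
        ∀ (m : Fin N → ℕ) (z : Z0N E), (∀ p ∈ z.support, ∀ i, m i • p i ∈ G (E i)) →
        z.sum (fun _ a => a) = 0 → (∀ i, z.sum (fun p a => a • p i) = 0) →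
        (2 * ∏ i, m i) • z ∈ RatEqN E := by
  obtain ⟨ι, -⟩ := exists_iota
  obtain ⟨l₀, hl0, hl1, hl, -, φ₀, hφ₀, hL₀⟩ := exists_leg2 ι E₀
  obtain ⟨Q₀, rfl⟩ := hφ₀.2 P₀
  obtain ⟨u, N, hu1, hu, hN, hQ⟩ := exists_start ι l₀ hl hl1 Q₀
  have himg : ∀ (E E' : WeierstrassCurve (AlgebraicClosure ℚ))
      (φ : E.toAffine.Point →+ E'.toAffine.Point), Lift (fun P => φ P) →
      ∀ a ∈ AddSubgroup.closure (SetE E u), φ a ∈ AddSubgroup.closure (SetE E' u) := by
    intro E E' φ hφ a ha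
    have hle : AddSubgroup.closure (SetE E u) ≤
        (AddSubgroup.closure (SetE E' u)).comap φ := by
      rw [AddSubgroup.closure_le]
      intro b hb
      exact AddSubgroup.subset_closure (SetE.image hφ (map_zero φ) hb)
    exact hle ha
  refine ⟨IntermediateField.adjoin ℚ {u}, fun E => AddSubgroup.closure (SetE E u),
    ?_, ⟨N, hN, ?_⟩, himg, ?_, ?_, ?_, ?_⟩
  · have : Algebra.IsAlgebraic ℚ (AlgebraicClosure ℚ) := AlgebraicClosure.isAlgebraic ℚ
    exact IntermediateField.adjoin.finiteDimensional (this.isAlgebraic u).isIntegral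
  · rw [← map_nsmul]
    exact himg _ _ φ₀ hL₀ _ hQ
  · intro L hKL E σ
    exact closure_map L (hKL (IntermediateField.subset_adjoin ℚ {u} rfl)) E σ
  · intro L _ E _ d
    exact closure_orbit ι u hu1 hu L E d
  · intro E _
    obtain ⟨l, _, hl1, hl, -, φ, hφ, hL⟩ := exists_leg2 ι E
    obtain ⟨P, hP, hPS⟩ := many ι l u hl hl1 hu1 hu
    refine ⟨fun i => φ (P i), hP.map_injOn φ.toIntLinearMap (fun a _ b _ h => hφ.1 h),
      fun i => AddSubgroup.subset_closure (SetE.image hL (map_zero φ) (hPS i))⟩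
  · intro N E hE m z hz hd hs
    refine cycleN E (fun i x y => ?_) (fun i => SetE (E i) u)
      (fun i j _ P hP Q hQ => SetE.sym hP hQ) m z hz hd hs
    have := hE i
    exact two_add_left (E i) x y 0

end Pool.Agent.ZC
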